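import Pool.Agent.helper11.TX.Spec3
import Pool.Agent.helper5.TX.NB

/-!
Row tx:NBS (MP_bf63dc_nt): a positive proportion of all triples in boxes, with the constant from a third.
-/

set_option autoImplicit false

namespace Pool.Agent.helper11.TX

open Finset Pool.Agent.helper85.FC

open Classical in
theorem NBS_Tw_card (h4 : NUS_stmt) (a b M : ℕ) (u : ℤ) :
    Tw TrueCase (Lam 6) a b M u ≤
      1 / 3 * (#{c ∈ Ioc ((b : ℤ) * u) ((b : ℤ) * (u + M)) | TrueCase a b c} : ℝ) := by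
  unfold Tw
  calc _ ≤ ∑ c ∈ Ioc ((b : ℤ) * u) ((b : ℤ) * (u + M)) with TrueCase a b c, (1 / 3 : ℝ) := by
        apply Finset.sum_le_sum
        intro c hc
        rw [Finset.mem_filter] at hc
        exact h4.2.1 a b c (NB_adm hc.2)
    _ = _ := by
        rw [Finset.sum_const, nsmul_eq_mul]
        ring

open Classical in
/-- the number of good `c` in windows -/
theorem NBS_win (h1 : LP_stmt) (h2 : NYS_stmt) (h3 : NP_stmt) (h4 : NUS_stmt) (hN : NGk (1 / 3) 6) :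
    ∃ N₀ : ℕ, ∀ N : ℕ, N₀ ≤ N → ∃ M₀ : ℕ, ∀ M : ℕ, M₀ ≤ M → ∀ u : ℤ,
      124 / 100000 * (N : ℝ) ^ 3 * M ≤ ∑ s ∈ S6 N, ∑ t ∈ S6 N with Nat.Coprime s t,
        (#{c ∈ Ioc ((s : ℤ) * u) ((s : ℤ) * (u + M)) | TrueCase t s c} : ℝ) := by
  obtain ⟨N1, hN1⟩ := h2
  obtain ⟨N2, hN2⟩ := h3
  refine ⟨max 1 (max N1 N2), fun N hNN => ?_⟩
  have hN0 : 1 ≤ N := le_trans (le_max_left _ _) hNN
  have hNpos : (0 : ℝ) < N := by exact_mod_cast hN0
  have hY := hN1 N (le_trans (le_trans (le_max_left _ _) (le_max_right _ _)) hNN)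
  have hP := hN2 N (le_trans (le_trans (le_max_right _ _) (le_max_right _ _)) hNN)
  have hL : ∀ a b : ℕ, ∃ M₀ : ℕ, 0 < a → 0 < b → ∀ M : ℕ, M₀ ≤ M → ∀ u : ℤ,
      Tw Adm (Lam 6) a b M u ≤ (1 + 1 / 1000) * (b * M) * PW 6 ^ 2 := by
    intro a b
    by_cases ha : 0 < a
    · by_cases hb : 0 < b
      · obtain ⟨M₀, hM⟩ := h1 6 a b (by norm_num) ha hb (1 / 1000) (by norm_num)
        exact ⟨M₀, fun _ _ => hM⟩
      · exact ⟨0, fun _ h => absurd h hb⟩
    · exact ⟨0, fun h _ => absurd h ha⟩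
  choose M0 hM0 using hL
  obtain ⟨M1, hM1⟩ := hN 6 (by norm_num) (dvd_refl _) (S6 N) (fun s => (s : ℝ))
    (fun s hs => ⟨(NB_mem hs).1, by positivity⟩) (1 / 1000) (by norm_num)
  refine ⟨max M1 (∑ s ∈ S6 N, ∑ t ∈ S6 N, M0 (t / Nat.gcd s t) (s / Nat.gcd s t)), fun M hM u => ?_⟩
  have hMpos : (0 : ℝ) ≤ M := by positivity
  have hG := hM1 M (le_trans (le_max_left _ _) hM) u
  have hMs : ∀ s ∈ S6 N, ∀ t ∈ S6 N, M0 (t / Nat.gcd s t) (s / Nat.gcd s t) ≤ M := by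
    intro s hs t ht
    calc M0 (t / Nat.gcd s t) (s / Nat.gcd s t)
        ≤ ∑ t ∈ S6 N, M0 (t / Nat.gcd s t) (s / Nat.gcd s t) :=
          Finset.single_le_sum (f := fun t => M0 (t / Nat.gcd s t) (s / Nat.gcd s t))
            (fun _ _ => Nat.zero_le _) ht
      _ ≤ ∑ s ∈ S6 N, ∑ t ∈ S6 N, M0 (t / Nat.gcd s t) (s / Nat.gcd s t) :=
          Finset.single_le_sum (f := fun s => ∑ t ∈ S6 N, M0 (t / Nat.gcd s t) (s / Nat.gcd s t))
            (fun _ _ => Nat.zero_le _) hs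
      _ ≤ M := le_trans (le_max_right _ _) hM
  have hPW : PW 6 ^ 2 = 1 / 9 := by rw [h4.1]; norm_num
  -- the lower bound of `GG`
  have hlow : (1 / 3 - 1 / 1000) * M * (1 / 9 * (73 / 500 * (N : ℝ) ^ 2) ^ 2) ≤
      GG 6 (S6 N) (fun s => (s : ℝ)) M u := by
    refine le_trans ?_ hG
    apply mul_le_mul_of_nonneg_left _ (by positivity)
    rw [mul_pow (PW 6), hPW]
    apply mul_le_mul_of_nonneg_left _ (by norm_num)
    exact pow_le_pow_left₀ (by positivity) hY 2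
  -- the upper bound
  have hup : GG 6 (S6 N) (fun s => (s : ℝ)) M u ≤
      (1 + 1 / 1000) * M * (1 / 9) * ((N : ℝ) ^ 4 / 299) +
      N * (1 / 3) * ∑ s ∈ S6 N, ∑ t ∈ S6 N with Nat.Coprime s t,
        (#{c ∈ Ioc ((s : ℤ) * u) ((s : ℤ) * (u + M)) | TrueCase t s c} : ℝ) := by
    unfold GG
    have e1 : ∀ s ∈ S6 N, ∑ t ∈ S6 N, (s : ℝ) * t / ((s / Nat.gcd s t : ℕ) : ℝ) *
        Tw TrueCase (Lam 6) (t / Nat.gcd s t) (s / Nat.gcd s t) M u ≤
        (1 + 1 / 1000) * M * (1 / 9) * (∑ t ∈ S6 N with ¬ Nat.Coprime s t, (s : ℝ) * t) +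
        N * (1 / 3) * ∑ t ∈ S6 N with Nat.Coprime s t,
          (#{c ∈ Ioc ((s : ℤ) * u) ((s : ℤ) * (u + M)) | TrueCase t s c} : ℝ) := by
      intro s hs
      rw [← Finset.sum_filter_not_add_sum_filter (S6 N) (fun t => Nat.Coprime s t), Finset.mul_sum,
        Finset.mul_sum]
      have hs1 := NB_mem hs
      apply add_le_add
      · apply Finset.sum_le_sum
        intro t ht
        rw [Finset.mem_filter] at ht
        have ht1 := NB_mem ht.1
        have hg : 0 < Nat.gcd s t := Nat.gcd_pos_of_pos_left _ hs1.1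
        have ha : 0 < t / Nat.gcd s t := Nat.div_pos (Nat.le_of_dvd ht1.1 (Nat.gcd_dvd_right s t)) hg
        have hb : 0 < s / Nat.gcd s t := Nat.div_pos (Nat.le_of_dvd hs1.1 (Nat.gcd_dvd_left s t)) hg
        have h5 := hM0 (t / Nat.gcd s t) (s / Nat.gcd s t) ha hb M (hMs s hs t ht.1) u
        rw [hPW] at h5
        have hb' : (0 : ℝ) < ((s / Nat.gcd s t : ℕ) : ℝ) := by exact_mod_cast hb
        calc (s : ℝ) * t / ((s / Nat.gcd s t : ℕ) : ℝ) *
            Tw TrueCase (Lam 6) (t / Nat.gcd s t) (s / Nat.gcd s t) M u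
            ≤ (s : ℝ) * t / ((s / Nat.gcd s t : ℕ) : ℝ) *
              ((1 + 1 / 1000) * (((s / Nat.gcd s t : ℕ) : ℝ) * M) * (1 / 9)) := by
              apply mul_le_mul_of_nonneg_left _ (by positivity)
              exact le_trans (NB_Tw_mono _ _ _ _ _) h5
          _ = (1 + 1 / 1000) * M * (1 / 9) * ((s : ℝ) * t) := by
              field_simp
      · apply Finset.sum_le_sum
        intro t ht
        rw [Finset.mem_filter] at ht
        have ht1 := NB_mem ht.1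
        have hg : Nat.gcd s t = 1 := ht.2
        rw [hg, Nat.div_one, Nat.div_one]
        have hs' : (0 : ℝ) < s := by exact_mod_cast hs1.1
        have htN : (t : ℝ) ≤ N := by exact_mod_cast ht1.2
        have e : (s : ℝ) * t / s = t := by field_simp
        rw [e]
        calc (t : ℝ) * Tw TrueCase (Lam 6) t s M u
            ≤ t * (1 / 3 * (#{c ∈ Ioc ((s : ℤ) * u) ((s : ℤ) * (u + M)) | TrueCase t s c} : ℝ)) :=
              mul_le_mul_of_nonneg_left (NBS_Tw_card h4 t s M u) (by positivity)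
          _ ≤ N * (1 / 3 * (#{c ∈ Ioc ((s : ℤ) * u) ((s : ℤ) * (u + M)) | TrueCase t s c} : ℝ)) :=
              mul_le_mul_of_nonneg_right htN (by positivity)
          _ = N * (1 / 3) * (#{c ∈ Ioc ((s : ℤ) * u) ((s : ℤ) * (u + M)) | TrueCase t s c} : ℝ) := by
              ring
    refine le_trans (Finset.sum_le_sum e1) ?_
    rw [Finset.sum_add_distrib, ← Finset.mul_sum, ← Finset.mul_sum]
    apply add_le_add _ (le_refl _)
    apply mul_le_mul_of_nonneg_left hP (by positivity)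
  have h5 := le_trans hlow hup
  set C : ℝ := ∑ s ∈ S6 N, ∑ t ∈ S6 N with Nat.Coprime s t,
        (#{c ∈ Ioc ((s : ℤ) * u) ((s : ℤ) * (u + M)) | TrueCase t s c} : ℝ) with hC
  have h6 : (124 / 100000 * (N : ℝ) ^ 3 * M) * (N * (1 / 3)) ≤ C * (N * (1 / 3)) := by
    have e : (1 / 3 - 1 / 1000) * M * (1 / 9 * (73 / 500 * (N : ℝ) ^ 2) ^ 2)
        - (1 + 1 / 1000) * M * (1 / 9) * ((N : ℝ) ^ 4 / 299)
        = M * (N : ℝ) ^ 4 * ((1 / 3 - 1 / 1000) * (1 / 9) * (73 / 500) ^ 2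
          - (1 + 1 / 1000) * (1 / 9) / 299) := by ring
    have h7 : (124 / 100000 : ℝ) * (1 / 3) ≤ (1 / 3 - 1 / 1000) * (1 / 9) * (73 / 500) ^ 2
          - (1 + 1 / 1000) * (1 / 9) / 299 := by norm_num
    have h8 : (M * (N : ℝ) ^ 4) * (124 / 100000 * (1 / 3)) ≤ M * (N : ℝ) ^ 4 *
        ((1 / 3 - 1 / 1000) * (1 / 9) * (73 / 500) ^ 2 - (1 + 1 / 1000) * (1 / 9) / 299) :=
      mul_le_mul_of_nonneg_left h7 (by positivity)
    rw [← e] at h8
    have e2 : (124 / 100000 * (N : ℝ) ^ 3 * M) * (N * (1 / 3)) = (M * (N : ℝ) ^ 4) * (124 / 100000 * (1 / 3)) := by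
      ring
    rw [e2]
    linarith
  exact le_of_mul_le_mul_right h6 (by positivity)

theorem NBS (h1 : LP_stmt) (h2 : NYS_stmt) (h3 : NP_stmt) (h4 : NUS_stmt) : NBS_stmt := by
  intro hN
  classical
  obtain ⟨N₀, hN₀⟩ := NBS_win h1 h2 h3 h4 hN
  refine ⟨max 1 N₀, fun N hNN => ?_⟩
  have hN1 : 1 ≤ N := le_trans (le_max_left _ _) hNN
  have hNpos : (0 : ℝ) < N := by exact_mod_cast hN1
  obtain ⟨M₀, hM₀⟩ := hN₀ N (le_trans (le_max_right _ _) hNN)
  refine ⟨max (N * M₀) (20 * N), fun M hM => ?_⟩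
  have hM1 : N * M₀ ≤ M := le_trans (le_max_left _ _) hM
  have hM2 : 20 * N ≤ M := le_trans (le_max_right _ _) hM
  set M' := M / N with hM'
  have hM3 : M₀ ≤ M' := by
    rw [hM', Nat.le_div_iff_mul_le hN1, mul_comm]
    exact hM1
  have hM4 : N * M' ≤ M := Nat.mul_div_le M N
  have hM5 : M < N * M' + N := by
    have := Nat.lt_mul_div_succ M hN1
    rw [hM']
    linarith
  have hfin : (N : ℝ) ^ 2 * M / 850 ≤ 124 / 100000 * (N : ℝ) ^ 3 * M' := by
    have h5 : (M : ℝ) ≤ N * M' + N := by exact_mod_cast hM5.le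
    have h6 : (20 : ℝ) * N ≤ M := by exact_mod_cast hM2
    have h7 : (M : ℝ) / 850 ≤ 124 / 100000 * (N * M') := by
      have : (124 / 100000 : ℝ) * (M - N) ≤ 124 / 100000 * (N * M') := by
        apply mul_le_mul_of_nonneg_left _ (by norm_num)
        linarith
      refine le_trans ?_ this
      linarith
    calc (N : ℝ) ^ 2 * M / 850 = (N : ℝ) ^ 2 * (M / 850) := by ring
      _ ≤ (N : ℝ) ^ 2 * (124 / 100000 * (N * M')) := mul_le_mul_of_nonneg_left h7 (by positivity)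
      _ = _ := by ring
  constructor
  · refine le_trans hfin (le_trans (hM₀ M' hM3 0) ?_)
    have h5 := NB_count N M (fun a b c => TrueCase a b (c : ℤ))
    have h6 : ∑ s ∈ S6 N, ∑ t ∈ S6 N with Nat.Coprime s t,
        #{c ∈ Ioc ((s : ℤ) * 0) ((s : ℤ) * (0 + M')) | TrueCase t s c} ≤
        ∑ s ∈ S6 N, ∑ t ∈ S6 N with Nat.Coprime s t, #{c ∈ Icc 1 M | TrueCase t s ((c : ℕ) : ℤ)} := by
      apply Finset.sum_le_sum
      intro s hs
      apply Finset.sum_le_sum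
      intro t _
      exact NB_pos N M M' s t (NB_mem hs).2 hM4
    have h7 := le_trans h6 h5
    exact_mod_cast h7
  · refine le_trans hfin (le_trans (hM₀ M' hM3 (-(M' : ℤ))) ?_)
    have h5 := NB_count N M (fun a b c => TrueCase a b (-(c : ℤ)))
    have h6 : ∑ s ∈ S6 N, ∑ t ∈ S6 N with Nat.Coprime s t,
        #{c ∈ Ioc ((s : ℤ) * (-(M' : ℤ))) ((s : ℤ) * (-(M' : ℤ) + M')) | TrueCase t s c} ≤
        ∑ s ∈ S6 N, ∑ t ∈ S6 N with Nat.Coprime s t, #{c ∈ Icc 1 M | TrueCase t s (-((c : ℕ) : ℤ))} := by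
      apply Finset.sum_le_sum
      intro s hs
      apply Finset.sum_le_sum
      intro t _
      exact NB_neg N M M' s t (NB_mem hs).2 hM4
    have h7 := le_trans h6 h5
    exact_mod_cast h7

end Pool.Agent.helper11.TX
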